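import Pool.Agent.Q329.AC.Core

/-!
# Gap 2-to-1 games with perfect completeness are not hard under constant-depth reductions

A 2-to-1 game with the vertex sets `U` and `V`, alphabet size `q` and `M` edges is a list of `M` edges
(`Edge`, `Game`); repeated edges count with multiplicity.

A many-one reduction from parity to `Gap_q(1, δ)` computed by circuits of constant depth needs
exponential size, for all `q` and all `δ < 1`. The encoding of the games is arbitrary: each edge
(its two ends and its constraint) is described by `b` bits, and `decode` tells which bits stand for
which edge. For the usual encodings `b = O(log M)` for each fixed `q`. The number of vertices, the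
number of edges and the alphabet size are arbitrary, and the soundness `δ` may tend to one.

So for no `q` and `δ < 1` is `Gap_q(1, δ)` hard for `NP`, or even for parity, under (nonuniform)
`AC0` many-one reductions which list the edges, whereas `NP`-hardness proofs which do not produce a
gap usually are such reductions: a proof of the conjecture must use reductions in which many edges
depend on much more than what circuits of constant depth can compute.

The definitions of circuits (`Circuit`, `nodeVal`, `nodeDepth`: NOT gates and AND and OR gates of
unbounded fan-in) are in `Pool/Agent/H568R2/Defs.lean`.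

Idea of the proof. A game of value one and a game of value at most `δ` differ in at least a fraction
`1 - δ` of the edges of the list, because the labelling which satisfies all edges of the first game
satisfies at most a fraction `δ` of the edges of the second. Under a random restriction which leaves
many variables free, all bits become decision trees of small depth `s`, so at every input at most
`b s` of the free variables are sensitive for a given edge. Count the pairs of a free variable and an
edge which changes when the variable is flipped.
-/

set_option autoImplicit false

namespace Pool.Agent.Results.MP_ec946a_lc.ConstantDepthReductions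

open Finset DomAC0
open scoped Classical

/-- An edge of a 2-to-1 game: its ends and the map of labels, all fibres of which have at most two
elements. -/
structure Edge (U V : Type) (q : ℕ) : Type where
  left : U
  right : V
  map : Fin q → Fin q
  twoToOne : ∀ c, (univ.filter fun a => map a = c).card ≤ 2

/-- A 2-to-1 game with `M` edges. -/
abbrev Game (U V : Type) (q M : ℕ) : Type := Fin M → Edge U V q

/-- The labelling satisfies the edge. -/
def Satisfies {U V : Type} {q : ℕ} (L : U → Fin q) (R : V → Fin q) (e : Edge U V q) : Prop :=
  e.map (L e.left) = R e.right

/-- Some labelling satisfies all edges. -/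
def ValueOne {U V : Type} {q M : ℕ} (G : Game U V q M) : Prop :=
  ∃ (L : U → Fin q) (R : V → Fin q), ∀ e, Satisfies L R (G e)

/-- Every labelling satisfies at most `δ M` of the edges. -/
def ValueAtMost {U V : Type} {q M : ℕ} (δ : ℝ) (G : Game U V q M) : Prop :=
  ∀ (L : U → Fin q) (R : V → Fin q), ((univ.filter fun e => Satisfies L R (G e)).card : ℝ) ≤ δ * M

/-- For every depth `h` there is `X₀` with the following property. Let `C` be a circuit with `N`
inputs, with NOT gates and AND and OR gates of unbounded fan-in, and let `out e j`, `e < M`, `j < b`,
be nodes of depth at most `h`. For every input `x` let the edge number `e` of the 2-to-1 game `G x` be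
given by the `b` bits `out e j` by the code `decode`. Let `δ < 1`. If `G x` has value one whenever `x`
has an even number of ones, and value at most `δ` whenever `x` has an odd number of ones, and if
`X = (1 - δ) N / b ≥ X₀`, then `C` has at least `2 ^ (X ^ (1 / (h + 1)) / 100)` gates. -/
theorem result (h : ℕ) : ∃ X₀ : ℝ, ∀ (N : ℕ) (C : Circuit (Fin N)) (U V : Type) (q M b : ℕ)
    (out : Fin M → Fin b → Fin N ⊕ Fin C.size) (decode : (Fin b → Bool) → Edge U V q)
    (G : (Fin N → Bool) → Game U V q M) (δ : ℝ),
    (∀ e j, C.nodeDepth (out e j) ≤ h) →
    (∀ x e, G x e = decode fun j => C.nodeVal x (out e j)) → 1 ≤ M → δ < 1 →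
    (∀ x, ¬ Odd (univ.filter fun i => x i = true).card → ValueOne (G x)) →
    (∀ x, Odd (univ.filter fun i => x i = true).card → ValueAtMost δ (G x)) →
    X₀ ≤ (1 - δ) * N / b →
    (2 : ℝ) ^ (((1 - δ) * N / b) ^ (1 / (h + 1 : ℝ)) / 100) ≤ C.size := by
  obtain ⟨X₀, hX1, hX₀⟩ := Pool.Agent.Q329.AC.large h
  refine ⟨X₀, ?_⟩
  intro N C U V q M b out decode G δ hdepth hG hM hδ hyes hno hX
  have hb : 1 ≤ b := by
    by_contra hb
    have : b = 0 := by omega
    rw [this, Nat.cast_zero, div_zero] at hX
    linarith
  have : Nonempty (Fin M) := ⟨⟨0, hM⟩⟩
  -- two games, one of value one and one of value at most `δ`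
  have key : ∀ x y : Fin N → Bool, ValueOne (G x) → ValueAtMost δ (G y) →
      (1 - δ) * Fintype.card (Fin M) ≤ ((univ.filter fun e =>
        (fun j => C.nodeVal x (out e j)) ≠ fun j => C.nodeVal y (out e j)).card : ℝ) := by
    rintro x y ⟨L, R, hLR⟩ hy
    have h1 := hy L R
    have h2 := Finset.card_filter_add_card_filter_not (s := (univ : Finset (Fin M)))
      (p := fun e => Satisfies L R (G y e))
    rw [card_univ] at h2
    have h3 : ((univ.filter fun e => ¬ Satisfies L R (G y e)).card : ℝ) ≤
        ((univ.filter fun e =>
          (fun j => C.nodeVal x (out e j)) ≠ fun j => C.nodeVal y (out e j)).card : ℝ) := by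
      norm_cast
      refine card_le_card fun e he => ?_
      rw [mem_filter] at he ⊢
      refine ⟨mem_univ _, fun heq => he.2 ?_⟩
      have h4 := hLR e
      rw [hG x e, heq, ← hG y e] at h4
      exact h4
    have h5 : ((univ.filter fun e => Satisfies L R (G y e)).card : ℝ) +
        ((univ.filter fun e => ¬ Satisfies L R (G y e)).card : ℝ) = Fintype.card (Fin M) := by
      exact_mod_cast h2
    rw [Fintype.card_fin] at h5 ⊢
    linarith
  refine hX₀ _ C.size hX fun s hs hcond => ?_
  have h6 := Pool.Agent.Q329.AC.list_core C out h hdepth (by rw [Fintype.card_fin]; exact hb)
    (1 - δ) (by linarith) (fun x i => ?_) hs hcond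
  · rwa [Fintype.card_fin] at h6
  · have hpar := Pool.Agent.Y601.SSE.odd_flip i x
    by_cases hodd : Odd (univ.filter fun j => x j = true).card
    · have hev : ¬ Odd (univ.filter fun j => Pool.Agent.Y601.SSE.flip i x j = true).card := by
        rw [hpar]; exact not_not.2 hodd
      refine (key _ _ (hyes _ hev) (hno _ hodd)).trans (le_of_eq ?_)
      congr 2
      ext e
      simp only [mem_filter, mem_univ, true_and, ne_eq]
      exact not_congr eq_comm
    · exact key _ _ (hyes _ hodd) (hno _ (hpar.2 hodd))

end Pool.Agent.Results.MP_ec946a_lc.ConstantDepthReductions
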