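import Mathlib
import Pool.Agent.Q330.FRD.Rand
import Pool.Agent.Q330.FRD.Sharp

/-!
# MP_ec946a_lc: random reductions to gap 2-to-1 games whose outputs are computed by formulas

A random reduction maps an input, a subset of a finite set `X` of variables, to a 2-to-1 game with
alphabet size `q`, given by its list of edges. Every entry of the list is encoded by arbitrarily
many bits, and each bit is computed by a formula with the gates AND and OR. If inputs in `A` are
mapped to games of value one, and inputs in `B` to games of value at most `δ` with at least `μ`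
edges, in both cases with probability at least `1 - η`, then Khrapchenko's lower bound for the pair
`(A, B)` carries over to the single edges.
-/

set_option autoImplicit false

namespace Pool.Agent.Results.MP_ec946a_lc.FormulaReductions

open Finset Pool.Agent.Q330.PHI Pool.Agent.Q330.FRD
open scoped Classical

/-- An edge: its ends and its constraint. -/
abbrev Edge (U V : Type) (q : ℕ) : Type := U × V × (Fin q → Fin q)

/-- A list of edges; an entry may be empty. -/
abbrev Inst (E U V : Type) (q : ℕ) : Type := E → Option (Edge U V q)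

/-- The entries which are edges. -/
noncomputable def edges {E U V : Type} [Fintype E] {q : ℕ} (y : Inst E U V q) : Finset E :=
  univ.filter fun e => ∃ p, y e = some p

/-- Every fibre of every constraint has at most two elements. -/
def TwoToOne {E U V : Type} {q : ℕ} (y : Inst E U V q) : Prop :=
  ∀ e p, y e = some p → ∀ b, (univ.filter fun a => p.2.2 a = b).card ≤ 2

/-- The labelling satisfies the edge. -/
def Satisfies {U V : Type} {q : ℕ} (L : U → Fin q) (K : V → Fin q) (p : Edge U V q) : Prop :=
  p.2.2 (L p.1) = K p.2.1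

/-- A 2-to-1 game of value one. -/
def ValueOne {E U V : Type} {q : ℕ} (y : Inst E U V q) : Prop :=
  TwoToOne y ∧ ∃ (L : U → Fin q) (K : V → Fin q), ∀ e p, y e = some p → Satisfies L K p

/-- A 2-to-1 game of value at most `δ`. -/
def ValueLe {E U V : Type} [Fintype E] {q : ℕ} (δ : ℝ) (y : Inst E U V q) : Prop :=
  TwoToOne y ∧ ∀ (L : U → Fin q) (K : V → Fin q),
    ((univ.filter fun e => ∃ p, y e = some p ∧ Satisfies L K p).card : ℝ) ≤ δ * (edges y).card

theorem differ {E U V : Type} [Fintype E] {q : ℕ} {δ : ℝ} {μ : ℕ} (hδ : δ ≤ 1)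
    {y y' : Inst E U V q} (hy : ValueOne y) (hy' : ValueLe δ y') (hμ : μ ≤ (edges y').card) :
    (1 - δ) * μ ≤ ((univ.filter fun e => y e ≠ y' e).card : ℝ) := by
  obtain ⟨-, L, K, hLK⟩ := hy
  have h1 := hy'.2 L K
  have h2 : edges y' ⊆ (univ.filter fun e => ∃ p, y' e = some p ∧ Satisfies L K p) ∪
      (univ.filter fun e => y e ≠ y' e) := by
    intro e he
    obtain ⟨p, hp⟩ := (mem_filter.1 he).2
    rw [mem_union, mem_filter, mem_filter]
    by_cases h : y e = y' e
    · exact Or.inl ⟨mem_univ _, p, hp, hLK e p (h.trans hp)⟩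
    · exact Or.inr ⟨mem_univ _, h⟩
  have h3 : ((edges y').card : ℝ) ≤
      ((univ.filter fun e => ∃ p, y' e = some p ∧ Satisfies L K p).card : ℝ) +
      ((univ.filter fun e => y e ≠ y' e).card : ℝ) := by
    exact_mod_cast (card_le_card h2).trans (card_union_le _ _)
  have h4 : (1 - δ) * μ ≤ (1 - δ) * (edges y').card :=
    mul_le_mul_of_nonneg_left (by exact_mod_cast hμ) (by linarith)
  linarith

/-- A random reduction to 2-to-1 games, given by formulas: for every random string `r` the entry `e`
of the output is decoded from the values of the formulas `φ r e j`. -/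
structure Reduction (X R E J U V : Type) (q : ℕ) where
  φ : R → E → J → Fml X
  dec : R → E → (J → Prop) → Option (Edge U V q)

/-- the output of the reduction -/
def Reduction.out {X R E J U V : Type} {q : ℕ} (red : Reduction X R E J U V q) (r : R)
    (x : Finset X) : Inst E U V q :=
  fun e => red.dec r e fun j => (red.φ r e j).Val x

/-- the random string `r` is good for the input `x`, which is to be mapped to a game of value one -/
def Reduction.Yes {X R E J U V : Type} {q : ℕ} (red : Reduction X R E J U V q) (x : Finset X)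
    (r : R) : Prop := ValueOne (red.out r x)

/-- the random string `r` is good for the input `x`, which is to be mapped to a game of value at
most `δ` with at least `μ` edges -/
def Reduction.No {X R E J U V : Type} [Fintype E] {q : ℕ} (red : Reduction X R E J U V q) (δ : ℝ)
    (μ : ℕ) (x : Finset X) (r : R) : Prop :=
  ValueLe δ (red.out r x) ∧ μ ≤ (edges (red.out r x)).card

/-- the expected sum of the square roots of the costs of all formulas; only variables in `D` are
taken into account -/
noncomputable def Reduction.cost {X R E J U V : Type} [Fintype X] [Fintype R] [Fintype E]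
    [Fintype J] {q : ℕ} (red : Reduction X R E J U V q) (p : R → ℝ) (D : Finset X) : ℝ :=
  ∑ r, p r * ∑ e, ∑ j, Real.sqrt ((red.φ r e j).cost D)

theorem key {X R E J U V : Type} [Fintype X] [Fintype R] [Fintype E] [Fintype J] {q : ℕ}
    (red : Reduction X R E J U V q) {p : R → ℝ} (hp : ∀ r, 0 ≤ p r) (hp1 : ∑ r, p r = 1)
    {δ η : ℝ} {μ : ℕ} (hδ : δ ≤ 1) {a b : Finset X}
    (ha : 1 - η ≤ ∑ r ∈ univ.filter (red.Yes a), p r)
    (hb : 1 - η ≤ ∑ r ∈ univ.filter (red.No δ μ b), p r) :
    (1 - 2 * η) * ((1 - δ) * μ) ≤ ∑ r, p r * ((univ.filter fun e : E =>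
      ∃ j, ¬ ((red.φ r e j).Val a ↔ (red.φ r e j).Val b)).card : ℝ) := by
  refine both hp hp1 (red.Yes a) (red.No δ μ b) (mul_nonneg (by linarith) (Nat.cast_nonneg _)) _
    (fun r => Nat.cast_nonneg _) ha hb fun r h1 h2 => ?_
  refine (differ hδ h1 h2.1 h2.2).trans ?_
  norm_cast
  refine card_le_card fun e he => ?_
  rw [mem_filter] at he ⊢
  refine ⟨mem_univ _, ?_⟩
  by_contra hcon
  push Not at hcon
  refine he.2 ?_
  unfold Reduction.out
  congr 1
  funext j
  exact propext (hcon j)

/-- (1) Khrapchenko's inequality for random reductions to gap 2-to-1 games. (2) Reductions of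
parity. (3) The bound for parity is attained, for any two games. -/
theorem result :
    (∀ (X R E J U V : Type) [Fintype X] [Fintype R] [Fintype E] [Fintype J] (q : ℕ)
      (red : Reduction X R E J U V q) (p : R → ℝ) (δ η : ℝ) (μ : ℕ) (D : Finset X)
      (A B : Finset (Finset X)), (∀ r, 0 ≤ p r) → ∑ r, p r = 1 → δ ≤ 1 →
      (∀ a ∈ A, 1 - η ≤ ∑ r ∈ univ.filter (red.Yes a), p r) →
      (∀ b ∈ B, 1 - η ≤ ∑ r ∈ univ.filter (red.No δ μ b), p r) →
      (1 - 2 * η) * ((1 - δ) * μ) * (prs D A B).card ≤
        Real.sqrt (A.card * B.card) * red.cost p D) ∧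
    (∀ (X R E J U V : Type) [Fintype X] [Fintype R] [Fintype E] [Fintype J] (q : ℕ)
      (red : Reduction X R E J U V q) (p : R → ℝ) (δ η : ℝ) (μ : ℕ),
      (∀ r, 0 ≤ p r) → ∑ r, p r = 1 → δ ≤ 1 →
      (∀ a : Finset X, a.card % 2 = 0 → 1 - η ≤ ∑ r ∈ univ.filter (red.Yes a), p r) →
      (∀ b : Finset X, b.card % 2 = 1 → 1 - η ≤ ∑ r ∈ univ.filter (red.No δ μ b), p r) →
      (1 - 2 * η) * ((1 - δ) * μ) * Fintype.card X ≤ red.cost p univ) ∧
    (∀ (E U V : Type) [Fintype E] (q : ℕ) (y₁ y₀ : Inst E U V q) (t : ℕ),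
      ∃ red : Reduction (Fin (2 ^ t)) Unit E Unit U V q,
        (∀ a : Finset (Fin (2 ^ t)), a.card % 2 = 0 → red.out () a = y₁) ∧
        (∀ b : Finset (Fin (2 ^ t)), b.card % 2 = 1 → red.out () b = y₀) ∧
        red.cost (fun _ => 1) univ ≤ ((univ.filter fun e => y₁ e ≠ y₀ e).card : ℝ) * 2 ^ t) := by
  refine ⟨?_, ?_, ?_⟩
  · intro X R E J U V _ _ _ _ q red p δ η μ D A B hp hp1 hδ hA hB
    exact core_random p hp D red.φ A B _ fun a ha b hb => key red hp hp1 hδ (hA a ha) (hB b hb)
  · intro X R E J U V _ _ _ _ q red p δ η μ hp hp1 hδ hA hB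
    exact core_random_parity p hp red.φ _ fun a ha b hb => key red hp hp1 hδ
      (hA a (mem_filter.1 ha).2) (hB b (mem_filter.1 hb).2)
  · intro E U V _ q y₁ y₀ t
    obtain ⟨φ, dec, h1, h2, h3⟩ := choose_word y₁ y₀ t
    refine ⟨⟨fun _ => φ, fun _ => dec⟩, fun a ha => h1 a (mem_filter.2 ⟨mem_univ _, ha⟩),
      fun b hb => h2 b (mem_filter.2 ⟨mem_univ _, hb⟩), ?_⟩
    unfold Reduction.cost
    rw [Fintype.sum_unique, one_mul]
    have e : (fun a b : Fin (2 ^ t) => Classical.propDecidable (a = b)) =
        instDecidableEqFin (2 ^ t) := Subsingleton.elim _ _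
    rw [e]
    refine le_trans (le_of_eq ?_) (h3.trans (le_of_eq ?_))
    · rfl
    · have h4 : ∀ (i i' : DecidablePred fun e : E => y₁ e ≠ y₀ e),
          (@filter E _ i univ).card = (@filter E _ i' univ).card := by
        intro i i'
        rw [Subsingleton.elim i i']
      rw [h4]

end Pool.Agent.Results.MP_ec946a_lc.FormulaReductions
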