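import Mathlib
import Pool.Agent.Q330.NEG.Sum
import Pool.Agent.Results.MP_ec946a_lc.FormulaReductions

/-!
# MP_ec946a_lc: random reductions with few negations to gap 2-to-1 games

A random reduction maps an input, a subset of a set `X`, to a 2-to-1 game, given by its list of edges.
Every entry of the list (an edge or nothing) is encoded by bits which are nodes of one circuit. The
gates of the circuit are arbitrary monotone functions of the input and of earlier gates, without any
bound of their number or complexity, and some NOT gates.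

The theorem bounds the (expected) number of NOT gates from below if along an increasing chain of
inputs the games alternate between value one and value at most `δ < 1`. If a list can only lose
edges when bits become false (for instance, one bit for each possible edge), nothing can be saved
compared with Markov's theorem: parity of `N` bits needs a circuit with `2 ^ (r + 1) > N`.

Idea of the proof. A step at which no NOT gate changes changes no bit from one to zero. At the other
steps the vector of the NOT gates decreases lexicographically, so there are less than `2 ^ r` of them.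
-/

set_option autoImplicit false

namespace Pool.Agent.Results.MP_ec946a_lc.FewNegations

open Finset Pool.Agent.Q330.NEG Pool.Agent.Q330.FRD
open Pool.Agent.Results.MP_ec946a_lc.FormulaReductions (Edge Inst edges TwoToOne Satisfies ValueOne
  ValueLe differ)
open scoped Classical

/-- A random reduction to 2-to-1 games, given by circuits: for every random string `r` the entry `e`
of the output is decoded from the values of the nodes `node r e j` of the circuit `C r`. -/
structure Reduction (X R E J U V : Type) (q : ℕ) where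
  C : R → Circuit X
  node : (r : R) → E → J → Fin (C r).s
  dec : R → E → (J → Prop) → Option (Edge U V q)

variable {X R E J U V : Type} {q : ℕ}

/-- The output of the reduction. -/
def Reduction.out (red : Reduction X R E J U V q) (r : R) (x : Finset X) : Inst E U V q :=
  fun e => red.dec r e fun j => (red.C r).val x (red.node r e j)

/-- The random string `r` is good for the input `x`, to be mapped to a game of value one. -/
def Reduction.Yes (red : Reduction X R E J U V q) (x : Finset X) (r : R) : Prop :=
  ValueOne (red.out r x)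

/-- The random string `r` is good for the input `x`, to be mapped to a game of value at most `δ` with
at least `μ` edges. -/
def Reduction.No [Fintype E] (red : Reduction X R E J U V q) (δ : ℝ) (μ : ℕ) (x : Finset X)
    (r : R) : Prop := ValueLe δ (red.out r x) ∧ μ ≤ (edges (red.out r x)).card

/-- If more bits are true then all edges remain, and there may be new ones. -/
def Reduction.MonoEnc (red : Reduction X R E J U V q) : Prop :=
  ∀ (r : R) (e : E) (u u' : J → Prop), (∀ j, u j → u' j) → ∀ p, red.dec r e u = some p →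
    red.dec r e u' = some p

/-- The inputs `x 0 ⊆ x 1 ⊆ … ⊆ x L` are mapped alternately, with probability at least `1 - η`, to
games of value one, and to games of value at most `δ` with at least `μ` edges. -/
def Reduction.Alternates [Fintype R] [Fintype E] (red : Reduction X R E J U V q) (p : R → ℝ)
    (δ η : ℝ) (μ : ℕ) (x : ℕ → Finset X) (L : ℕ) : Prop :=
  (∀ t < L, x t ⊆ x (t + 1)) ∧
  (∀ t ≤ L, t % 2 = 0 → 1 - η ≤ ∑ r ∈ univ.filter (red.Yes (x t)), p r) ∧
  (∀ t ≤ L, t % 2 = 1 → 1 - η ≤ ∑ r ∈ univ.filter (red.No δ μ (x t)), p r)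

/-- The expectation of `2 ^ (number of NOT gates)`. -/
noncomputable def Reduction.negs [Fintype R] (red : Reduction X R E J U V q) (p : R → ℝ) : ℝ :=
  ∑ r, p r * 2 ^ (red.C r).nots.card

/-- The reduction is right for parity: sets with an even number of elements are mapped to games of
value one, and sets with an odd number of elements to games of value at most `δ` with at least `μ`
edges, with probability at least `1 - η`. -/
def Reduction.Parity [Fintype R] [Fintype E] (red : Reduction X R E J U V q) (p : R → ℝ)
    (δ η : ℝ) (μ : ℕ) : Prop :=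
  (∀ a : Finset X, a.card % 2 = 0 → 1 - η ≤ ∑ r ∈ univ.filter (red.Yes a), p r) ∧
  (∀ a : Finset X, a.card % 2 = 1 → 1 - η ≤ ∑ r ∈ univ.filter (red.No δ μ a), p r)

theorem differ_bits [Fintype E] [Fintype J] (red : Reduction X R E J U V q) {δ : ℝ} {μ : ℕ}
    (hδ : δ ≤ 1) (r : R) {a b : Finset X} (ha : ValueOne (red.out r a))
    (hb : ValueLe δ (red.out r b)) (hμ : μ ≤ (edges (red.out r b)).card) :
    (1 - δ) * μ ≤ ((univ.filter fun e : E => ∃ j, ¬ ((red.C r).val a (red.node r e j) ↔
      (red.C r).val b (red.node r e j))).card : ℝ) := by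
  refine (differ hδ ha hb hμ).trans ?_
  norm_cast
  refine card_le_card fun e he => ?_
  rw [mem_filter] at he ⊢
  refine ⟨mem_univ _, ?_⟩
  by_contra hcon
  push Not at hcon
  refine he.2 ?_
  unfold Reduction.out
  congr 1
  funext j
  exact propext (hcon j)

theorem part1 [Fintype R] [Fintype E] [Fintype J] (red : Reduction X R E J U V q) {p : R → ℝ}
    (hp : ∀ r, 0 ≤ p r) (hp1 : ∑ r, p r = 1) {δ η : ℝ} {μ : ℕ} (hδ : δ ≤ 1) {x : ℕ → Finset X}
    {L : ℕ} (h : red.Alternates p δ η μ x L) :
    (1 - 2 * η) * ((1 - δ) * μ) * L ≤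
      Fintype.card E * ((Fintype.card J + 1) * red.negs p - 1) := by
  obtain ⟨hx, hyes, hno⟩ := h
  have hc : 0 ≤ (1 - δ) * (μ : ℝ) := mul_nonneg (by linarith) (Nat.cast_nonneg _)
  have h1 : ∀ t ∈ range L, (1 - 2 * η) * ((1 - δ) * μ) ≤ ∑ r, p r * ((univ.filter fun e : E =>
      ∃ j, ¬ ((red.C r).val (x t) (red.node r e j) ↔
        (red.C r).val (x (t + 1)) (red.node r e j))).card : ℝ) := by
    intro t ht
    rw [mem_range] at ht
    rcases Nat.mod_two_eq_zero_or_one t with h | h
    · exact both hp hp1 _ _ hc _ (fun r => Nat.cast_nonneg _) (hyes t ht.le h)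
        (hno (t + 1) ht (by omega)) fun r h1 h2 => differ_bits red hδ r h1 h2.1 h2.2
    · refine both hp hp1 _ _ hc _ (fun r => Nat.cast_nonneg _) (hyes (t + 1) ht (by omega))
        (hno t ht.le h) fun r h1 h2 => ?_
      refine (differ_bits red hδ r h1 h2.1 h2.2).trans (le_of_eq ?_)
      congr 2
      refine filter_congr fun e _ => exists_congr fun j => not_congr ?_
      exact Iff.comm
  calc (1 - 2 * η) * ((1 - δ) * μ) * L = ∑ t ∈ range L, (1 - 2 * η) * ((1 - δ) * μ) := by
        rw [sum_const, card_range, nsmul_eq_mul, mul_comm]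
    _ ≤ ∑ t ∈ range L, ∑ r, p r * ((univ.filter fun e : E =>
      ∃ j, ¬ ((red.C r).val (x t) (red.node r e j) ↔
        (red.C r).val (x (t + 1)) (red.node r e j))).card : ℝ) := sum_le_sum h1
    _ = ∑ r, p r * ∑ t ∈ range L, ((univ.filter fun e : E =>
      ∃ j, ¬ ((red.C r).val (x t) (red.node r e j) ↔
        (red.C r).val (x (t + 1)) (red.node r e j))).card : ℝ) := by
        rw [sum_comm]
        exact sum_congr rfl fun r _ => by rw [mul_sum]
    _ ≤ ∑ r, p r * (Fintype.card E * ((Fintype.card J + 1) * 2 ^ (red.C r).nots.card - 1)) :=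
        sum_le_sum fun r _ => mul_le_mul_of_nonneg_left
          (core_sum (red.C r) (red.node r) x L hx) (hp r)
    _ = Fintype.card E * ((Fintype.card J + 1) * ∑ r, p r * 2 ^ (red.C r).nots.card -
          ∑ r, p r) := by
        rw [mul_sum, ← sum_sub_distrib, mul_sum]
        refine sum_congr rfl fun r _ => ?_
        ring
    _ = _ := by rw [hp1]; rfl

theorem changed [Fintype E] [Fintype J] (red : Reduction X R E J U V q) (hm : red.MonoEnc) {δ : ℝ}
    {μ : ℕ} (hδ : δ < 1) (hμ : 1 ≤ μ) (r : R) {a b : Finset X} (hab : a ⊆ b)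
    (hb : ValueOne (red.out r b)) (ha : ValueLe δ (red.out r a))
    (ha2 : μ ≤ (edges (red.out r a)).card) : Chg (red.C r) a b := by
  by_contra hcon
  unfold Chg at hcon
  push Not at hcon
  have h1 : ∀ e p, red.out r a e = some p → red.out r b e = some p := by
    intro e p he
    exact hm r e _ _ (fun j hj => lift_all (red.C r) hab hcon _ hj) p he
  obtain ⟨-, K, M, h⟩ := hb
  have h2 := ha.2 K M
  have h3 : (univ.filter fun e => ∃ p, red.out r a e = some p ∧ Satisfies K M p) =
      edges (red.out r a) := by
    ext e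
    unfold edges
    rw [mem_filter, mem_filter]
    constructor
    · rintro ⟨h3, p, h4, -⟩
      exact ⟨h3, p, h4⟩
    · rintro ⟨h3, p, h4⟩
      exact ⟨h3, p, h4, h e p (h1 e p h4)⟩
  rw [h3] at h2
  have h4 : (1 : ℝ) ≤ ((edges (red.out r a)).card : ℝ) := by exact_mod_cast hμ.trans ha2
  nlinarith

theorem part2 [Fintype R] [Fintype E] [Fintype J] (red : Reduction X R E J U V q)
    (hm : red.MonoEnc) {p : R → ℝ} (hp : ∀ r, 0 ≤ p r) (hp1 : ∑ r, p r = 1) {δ η : ℝ} {μ : ℕ}
    (hδ : δ < 1) (hμ : 1 ≤ μ) {x : ℕ → Finset X} {L : ℕ} (h : red.Alternates p δ η μ x L) :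
    (1 - 2 * η) * (L / 2 : ℕ) ≤ red.negs p - 1 := by
  obtain ⟨hx, hyes, hno⟩ := h
  have h1 : ∀ t ∈ range L, (1 - 2 * η) * (if t % 2 = 1 then 1 else 0 : ℕ) ≤
      ∑ r, p r * (if Chg (red.C r) (x t) (x (t + 1)) then 1 else 0 : ℕ) := by
    intro t ht
    rw [mem_range] at ht
    rcases Nat.mod_two_eq_zero_or_one t with h | h
    · rw [if_neg (by omega), Nat.cast_zero, mul_zero]
      exact sum_nonneg fun r _ => mul_nonneg (hp r) (Nat.cast_nonneg _)
    · rw [if_pos h, Nat.cast_one]
      refine both hp hp1 _ _ zero_le_one _ (fun r => Nat.cast_nonneg _) (hyes (t + 1) ht (by omega))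
        (hno t ht.le h) fun r h1 h2 => ?_
      rw [if_pos (changed red hm hδ hμ r (hx t ht) h1 h2.1 h2.2), Nat.cast_one]
  have h2 : ∀ r, (∑ t ∈ range L, (if Chg (red.C r) (x t) (x (t + 1)) then 1 else 0 : ℕ) : ℝ) ≤
      2 ^ (red.C r).nots.card - 1 := by
    intro r
    have h3 := changes (red.C r) x L hx
    have h4 : ((∑ t ∈ range L, (if Chg (red.C r) (x t) (x (t + 1)) then 1 else 0) + 1 : ℕ) : ℝ) ≤
        2 ^ (red.C r).nots.card := by exact_mod_cast h3
    push_cast at h4 ⊢
    linarith
  calc (1 - 2 * η) * (L / 2 : ℕ) = ∑ t ∈ range L, (1 - 2 * η) * (if t % 2 = 1 then 1 else 0 : ℕ) := by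
        rw [← mul_sum, ← sum_odd L]
        push_cast
        rfl
    _ ≤ ∑ t ∈ range L, ∑ r, p r * (if Chg (red.C r) (x t) (x (t + 1)) then 1 else 0 : ℕ) :=
        sum_le_sum h1
    _ = ∑ r, p r * ∑ t ∈ range L, ((if Chg (red.C r) (x t) (x (t + 1)) then 1 else 0 : ℕ) : ℝ) := by
        rw [sum_comm]
        exact sum_congr rfl fun r _ => by rw [mul_sum]
    _ ≤ ∑ r, p r * (2 ^ (red.C r).nots.card - 1) :=
        sum_le_sum fun r _ => mul_le_mul_of_nonneg_left (h2 r) (hp r)
    _ = ∑ r, p r * 2 ^ (red.C r).nots.card - ∑ r, p r := by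
        rw [← sum_sub_distrib]
        exact sum_congr rfl fun r _ => by ring
    _ = _ := by rw [hp1]; rfl

theorem chain {N : ℕ} [Fintype R] [Fintype E] (red : Reduction (Fin N) R E J U V q) {p : R → ℝ}
    {δ η : ℝ} {μ : ℕ} (h : red.Parity p δ η μ) :
    red.Alternates p δ η μ (fun t => univ.filter fun i : Fin N => (i : ℕ) < t) N := by
  have hcard : ∀ t ≤ N, ((univ.filter fun i : Fin N => (i : ℕ) < t)).card = t := by
    intro t ht
    rw [Fin.card_filter_val_lt, min_eq_right ht]
  refine ⟨fun t _ i hi => ?_, fun t ht h1 => ?_, fun t ht h1 => ?_⟩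
  · rw [mem_filter] at hi ⊢
    exact ⟨mem_univ _, by omega⟩
  · exact h.1 _ (by rw [hcard t ht]; exact h1)
  · exact h.2 _ (by rw [hcard t ht]; exact h1)

/-- (1) If a random reduction maps the inputs of an increasing chain of length `L` alternately to
games of value one and of value at most `δ`, with at least `μ` edges, with the probability of error
`η`, then `(1 - 2 η) (1 - δ) μ L` is at most the number of the entries times `(b + 1) M - 1`, where `M`
is the expectation of `2 ^ (number of NOT gates)`.

(2) If the encoding is monotone, `δ < 1` and `μ ≥ 1` then `(1 - 2 η) ⌊L / 2⌋ ≤ M - 1`.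

(3) Both hold for random reductions of the parity of `N` bits, with `L = N`.

(4) Conversely, for any two games `y₁`, `y₀` there is such a reduction, without randomness, of the
parity of `N < 2 ^ (r + 1)` bits, to `y₁` and `y₀`, with one bit for each entry and `r` NOT gates. Its
encoding is monotone if `y₀` contains the edges of `y₁`. -/
theorem result :
    (∀ (X R E J U V : Type) [Fintype R] [Fintype E] [Fintype J] (q : ℕ)
      (red : Reduction X R E J U V q) (p : R → ℝ) (δ η : ℝ) (μ : ℕ) (x : ℕ → Finset X) (L : ℕ),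
      (∀ r, 0 ≤ p r) → ∑ r, p r = 1 → red.Alternates p δ η μ x L →
      (δ ≤ 1 → (1 - 2 * η) * ((1 - δ) * μ) * L ≤
        Fintype.card E * ((Fintype.card J + 1) * red.negs p - 1)) ∧
      (δ < 1 → 1 ≤ μ → red.MonoEnc → (1 - 2 * η) * (L / 2 : ℕ) ≤ red.negs p - 1)) ∧
    (∀ (N : ℕ) (R E J U V : Type) [Fintype R] [Fintype E] [Fintype J] (q : ℕ)
      (red : Reduction (Fin N) R E J U V q) (p : R → ℝ) (δ η : ℝ) (μ : ℕ),
      (∀ r, 0 ≤ p r) → ∑ r, p r = 1 → red.Parity p δ η μ →
      (δ ≤ 1 → (1 - 2 * η) * ((1 - δ) * μ) * N ≤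
        Fintype.card E * ((Fintype.card J + 1) * red.negs p - 1)) ∧
      (δ < 1 → 1 ≤ μ → red.MonoEnc → (1 - 2 * η) * (N / 2 : ℕ) ≤ red.negs p - 1)) ∧
    (∀ (X E U V : Type) [Fintype X] (q r : ℕ) (y₁ y₀ : Inst E U V q), Fintype.card X < 2 ^ (r + 1) →
      ∃ red : Reduction X Unit E Unit U V q, (red.C ()).nots.card = r ∧
        (∀ a : Finset X, a.card % 2 = 0 → red.out () a = y₁) ∧
        (∀ a : Finset X, a.card % 2 = 1 → red.out () a = y₀) ∧
        ((∀ e p, y₁ e = some p → y₀ e = some p) → red.MonoEnc)) := by
  refine ⟨?_, ?_, ?_⟩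
  · intro X R E J U V _ _ _ q red p δ η μ x L hp hp1 h
    exact ⟨fun hδ => part1 red hp hp1 hδ h, fun hδ hμ hm => part2 red hm hp hp1 hδ hμ h⟩
  · intro N R E J U V _ _ _ q red p δ η μ hp hp1 h
    exact ⟨fun hδ => part1 red hp hp1 hδ (chain red h),
      fun hδ hμ hm => part2 red hm hp hp1 hδ hμ (chain red h)⟩
  · intro X E U V _ q r y₁ y₀ hr
    obtain ⟨C, o, hC, ho⟩ := exists_parity X r hr
    refine ⟨⟨fun _ => C, fun _ _ _ => o, fun _ e w => if w () then y₀ e else y₁ e⟩, hC, ?_, ?_, ?_⟩
    · intro a ha
      funext e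
      have h : ¬ C.val a o := by rw [ho]; omega
      show (if C.val a o then y₀ e else y₁ e) = y₁ e
      rw [if_neg h]
    · intro a ha
      funext e
      have h : C.val a o := by rw [ho]; exact ha
      show (if C.val a o then y₀ e else y₁ e) = y₀ e
      rw [if_pos h]
    · intro h r' e u u' hu p hp
      change (if u () then y₀ e else y₁ e) = some p at hp
      show (if u' () then y₀ e else y₁ e) = some p
      by_cases h1 : u ()
      · rw [if_pos h1] at hp
        rw [if_pos (hu _ h1)]
        exact hp
      · rw [if_neg h1] at hp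
        by_cases h2 : u' ()
        · rw [if_pos h2]
          exact h e p hp
        · rw [if_neg h2]
          exact hp

end Pool.Agent.Results.MP_ec946a_lc.FewNegations
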