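import Pool.Agent.Q329.LT.Main

/-!
# Satisfiable 2-to-1 games are hard for read-once tensor networks, for every alphabet and every
nontrivial soundness

The inputs are 2-to-1 games on the complete bipartite graph with `n + n` vertices: all vertices get
labels in `Fin q`, and every edge `(u, v)` has a map `x (u, v)` from `Fin q` to `Fin q`, which is
satisfied if it sends the label of `u` to the label of `v`. In a 2-to-1 game all fibres of the maps
have at most two elements, in a strict 2-to-1 game they have none or exactly two elements.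

A tree tensor network `Net K V A W` (`Pool/Agent/TH700/PA/Defs.lean`) has leaves that read one symbol
of the alphabet `A` each (with a vector in `K ^ W` for each symbol); an inner node combines the
vectors of its two children by an arbitrary bilinear map. It accepts the input `x` if a linear form
of the vector of the root is not zero. The field `K` and the weights are arbitrary, so there may be
cancellations. The tree and the order of the edges are arbitrary. The bond dimension is `card W`.

The starting result `TensorNetworks` treats soundness `1 / g` for `q ≥ Γ g ^ 8` labels. The lower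
bound for linear unique games of `Pool/Agent/Q329/LT/Main.lean` gives all soundness parameters above
`1 / q` (above `2 / q` for strict 2-to-1 games).
-/

set_option autoImplicit false

namespace Pool.Agent.Results.MP_ec946a_lc.TensorNetworksEverySoundness

open Finset Pool.Agent.TH700.PA

/-- The constraints all of whose fibres have a number of elements in `S`. -/
def Constraint (S : Set ℕ) (q : ℕ) : Type :=
  {f : Fin q → Fin q // ∀ b, Nat.card {a // f a = b} ∈ S}

/-- The constraint of the edge `e` is satisfied by the labelling `L` of the left and `M` of the right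
vertices. -/
def Satisfied {S : Set ℕ} {n q : ℕ} (x : Fin n × Fin n → Constraint S q) (L M : Fin n → Fin q)
    (e : Fin n × Fin n) : Prop :=
  (x e).1 (L e.1) = M e.2

/-- The game has value one: some labelling satisfies all constraints. -/
def ValueOne {S : Set ℕ} {n q : ℕ} (x : Fin n × Fin n → Constraint S q) : Prop :=
  ∃ L M : Fin n → Fin q, ∀ e, Satisfied x L M e

/-- The game has value at most `δ`: every labelling satisfies at most `δ n ^ 2` constraints. -/
def ValueLe {S : Set ℕ} {n q : ℕ} (δ : ℝ) (x : Fin n × Fin n → Constraint S q) : Prop :=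
  ∀ L M : Fin n → Fin q, (Nat.card {e // Satisfied x L M e} : ℝ) ≤ δ * (n : ℝ) ^ 2

/-- For `n ≥ D` random tensor networks which read every edge at most once, never accept a game of
value at most `δ` and accept every game of value one with probability at least `2 ^ (- μ)` have bond
dimension at least `2 ^ (n / D - μ)`. (The deterministic case is `Ρ = Unit`, `μ = 0`.) -/
def LowerBound (S : Set ℕ) (q : ℕ) (δ : ℝ) (D : ℕ) : Prop :=
  ∀ n : ℕ, D ≤ n →
    ∀ (μ : ℕ) (Ρ : Type) [Fintype Ρ] [Nonempty Ρ] (K W : Ρ → Type) [∀ ρ, Field (K ρ)]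
      [∀ ρ, Fintype (W ρ)] (T : ∀ ρ, Net (K ρ) (Fin n × Fin n) (Constraint S q) (W ρ))
      (a : ∀ ρ, W ρ → K ρ),
      (∀ ρ e, (T ρ).reads e ≤ 1) →
      (∀ ρ x, ValueLe δ x → (T ρ).value (a ρ) x = 0) →
      (∀ x, ValueOne x → Nat.card Ρ ≤ 2 ^ μ * Nat.card {ρ // (T ρ).value (a ρ) x ≠ 0}) →
      ∃ ρ, 2 ^ n ≤ (2 ^ μ * Fintype.card (W ρ)) ^ D

/-- the network which reads translated symbols -/
def pull {K V A B W : Type} (g : B → A) : Net K V A W → Net K V B W
  | .leaf v f => .leaf v (fun b => f (g b))
  | .node l r c => .node (pull g l) (pull g r) c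

theorem pull_eval {K V A B W : Type} [Semiring K] [Fintype W] (g : B → A) (T : Net K V A W)
    (x : V → B) : (pull g T).eval x = T.eval (fun v => g (x v)) := by
  induction T with
  | leaf v f => rfl
  | node l r c hl hr =>
    funext k
    simp only [pull, Net.eval, hl, hr]

theorem pull_reads {K V A B W : Type} (g : B → A) (T : Net K V A W) (v : V) :
    (pull g T).reads v = T.reads v := by
  induction T with
  | leaf u f => rfl
  | node l r c hl hr => simp only [pull, Net.reads, hl, hr]

/-- The transfer: `φ`, `ψ` read off the labels of the equations, and `φ'`, `ψ'` are right inverses. -/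
theorem transfer {S : Set ℕ} {q r : ℕ} [NeZero r] (hr : 2 ≤ r) {δ : ℝ} (hδ : 1 / (r : ℝ) < δ)
    (con : ZMod r → Constraint S q) (φ ψ : Fin q → ZMod r) (φ' ψ' : ZMod r → Fin q)
    (h1 : ∀ x a b, (con x).1 a = b → ψ b - φ a = x)
    (h2 : ∀ x u v, v - u = x → (con x).1 (φ' u) = ψ' v) :
    ∃ D : ℕ, 0 < D ∧ LowerBound S q δ D := by
  obtain ⟨D, hD, h⟩ := Pool.Agent.Q329.LT.lower r hr δ hδ
  refine ⟨D, hD, fun n hn μ Ρ _ _ K W _ _ T a g1 g2 g3 => ?_⟩
  have hval : ∀ ρ (x : Fin n × Fin n → ZMod r), (pull con (T ρ)).value (a ρ) x =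
      (T ρ).value (a ρ) (fun e => con (x e)) := by
    intro ρ x
    unfold Net.value
    rw [pull_eval]
  refine h n hn μ Ρ K W (fun ρ => pull con (T ρ)) a
    (fun ρ e => by rw [pull_reads]; exact g1 ρ e)
    (fun ρ x hx => ?_) (fun x hx => ?_)
  · rw [hval]
    apply g2 ρ
    intro L M
    refine le_trans ?_ (hx (fun u => φ (L u)) (fun v => ψ (M v)))
    apply Nat.cast_le.2
    exact Nat.card_le_card_of_injective
      (fun e : {e // Satisfied (fun e => con (x e)) L M e} =>
        (⟨e.1, h1 _ _ _ e.2⟩ : {e // Pool.Agent.Q329.LT.Solves x (fun u => φ (L u))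
          (fun v => ψ (M v)) e}))
      (fun e e' hee => Subtype.ext (congrArg (fun z => z.1) hee))
  · simp only [hval]
    apply g3
    obtain ⟨L, M, hLM⟩ := hx
    exact ⟨fun u => φ' (L u), fun v => ψ' (M v), fun e => h2 _ _ _ (hLM e)⟩

/-- all fibres have at most two elements -/
theorem weak (q : ℕ) (hq : 2 ≤ q) {δ : ℝ} (hδ : 1 / (q : ℝ) < δ) :
    ∃ D : ℕ, 0 < D ∧ LowerBound (Set.Iic 2) q δ D := by
  have : NeZero q := ⟨by omega⟩
  let e : Fin q ≃ ZMod q := Fintype.equivOfCardEq (by rw [Fintype.card_fin, ZMod.card])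
  have hf : ∀ (x : ZMod q) (b : Fin q), Nat.card {a // e.symm (e a + x) = b} ∈ Set.Iic 2 := by
    intro x b
    have hinj : Function.Injective (fun _ : {a // e.symm (e a + x) = b} => ()) := by
      intro a a' _
      apply Subtype.ext
      have h1 := a.2.trans a'.2.symm
      have h2 := e.symm.injective h1
      exact e.injective (add_right_cancel h2)
    have h3 : Nat.card {a // e.symm (e a + x) = b} ≤ Nat.card Unit :=
      Nat.card_le_card_of_injective _ hinj
    have h4 : Nat.card Unit = 1 := Nat.card_unique
    exact (h3.trans h4.le).trans (by norm_num)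
  refine transfer hq hδ (fun x => ⟨fun a => e.symm (e a + x), hf x⟩) e e e.symm e.symm ?_ ?_
  · intro x a b h
    change e.symm (e a + x) = b at h
    rw [Equiv.symm_apply_eq] at h
    rw [← h]
    abel
  · intro x u v h
    change e.symm (e (e.symm u) + x) = e.symm v
    rw [Equiv.apply_symm_apply, ← h]
    congr 1
    abel

/-- all nonempty fibres have exactly two elements -/
theorem strict (r : ℕ) (hr : 2 ≤ r) {δ : ℝ} (hδ : 1 / (r : ℝ) < δ) :
    ∃ D : ℕ, 0 < D ∧ LowerBound {0, 2} (2 * r) δ D := by
  have : NeZero r := ⟨by omega⟩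
  let e : Fin r ≃ ZMod r := Fintype.equivOfCardEq (by rw [Fintype.card_fin, ZMod.card])
  let s : Fin (2 * r) ≃ Fin 2 × Fin r := (finProdFinEquiv (m := 2) (n := r)).symm
  let φ : Fin (2 * r) → ZMod r := fun a => e (s a).2
  have hf : ∀ (x : ZMod r) (b : Fin (2 * r)),
      Nat.card {a // s.symm (0, e.symm (φ a + x)) = b} ∈ ({0, 2} : Set ℕ) := by
    intro x b
    by_cases hb : (s b).1 = 0
    · right
      have hiff : ∀ a, s.symm (0, e.symm (φ a + x)) = b ↔ (s a).2 = e.symm (φ b - x) := by
        intro a
        rw [Equiv.symm_apply_eq]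
        constructor
        · intro h
          have h1 := congrArg Prod.snd h
          change e.symm (e (s a).2 + x) = (s b).2 at h1
          rw [Equiv.symm_apply_eq] at h1
          rw [eq_comm, Equiv.symm_apply_eq]
          change e (s b).2 - x = e (s a).2
          rw [← h1]
          abel
        · intro h
          refine Prod.ext hb.symm ?_
          change e.symm (e (s a).2 + x) = (s b).2
          rw [h, Equiv.symm_apply_eq, Equiv.apply_symm_apply]
          change e (s b).2 - x + x = e (s b).2
          abel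
      rw [Nat.card_congr (Equiv.subtypeEquivRight hiff)]
      have e2 : {a // (s a).2 = e.symm (φ b - x)} ≃ Fin 2 :=
        { toFun := fun a => (s a.1).1
          invFun := fun i => ⟨s.symm (i, e.symm (φ b - x)), by rw [Equiv.apply_symm_apply]⟩
          left_inv := fun a => by
            apply Subtype.ext
            change s.symm ((s a.1).1, e.symm (φ b - x)) = a.1
            rw [Equiv.symm_apply_eq]
            exact Prod.ext rfl a.2.symm
          right_inv := fun i => by
            change (s (s.symm (i, e.symm (φ b - x)))).1 = i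
            rw [Equiv.apply_symm_apply] }
      rw [Nat.card_congr e2, Nat.card_eq_fintype_card, Fintype.card_fin]
      rfl
    · left
      have : IsEmpty {a // s.symm (0, e.symm (φ a + x)) = b} := by
        constructor
        rintro ⟨a, ha⟩
        apply hb
        rw [← ha, Equiv.apply_symm_apply]
      exact Nat.card_of_isEmpty
  refine transfer hr hδ (fun x => ⟨fun a => s.symm (0, e.symm (φ a + x)), hf x⟩) φ φ
    (fun u => s.symm (0, e.symm u)) (fun u => s.symm (0, e.symm u)) ?_ ?_
  · intro x a b h
    change s.symm (0, e.symm (φ a + x)) = b at h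
    rw [← h]
    change e (s (s.symm (0, e.symm (φ a + x)))).2 - φ a = x
    rw [Equiv.apply_symm_apply]
    change e (e.symm (φ a + x)) - φ a = x
    rw [Equiv.apply_symm_apply]
    abel
  · intro x u v h
    change s.symm (0, e.symm (e (s (s.symm (0, e.symm u))).2 + x)) = s.symm (0, e.symm v)
    rw [Equiv.apply_symm_apply]
    change s.symm (0, e.symm (e (e.symm u) + x)) = s.symm (0, e.symm v)
    rw [Equiv.apply_symm_apply, ← h]
    congr 3
    abel

/-- every game has a labelling that satisfies a fraction `1 / q` of the constraints -/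
theorem value_ge {S : Set ℕ} {n q : ℕ} (hn : 1 ≤ n) (hq : 1 ≤ q) {δ : ℝ} (hδ : δ < 1 / q)
    (x : Fin n × Fin n → Constraint S q) : ¬ ValueLe δ x := by
  classical
  intro hv
  have hq0 : (0 : ℝ) < q := by exact_mod_cast hq
  have h1 : ∀ c : Fin q, ((univ.filter fun e => (x e).1 ⟨0, hq⟩ = c).card : ℝ) ≤
      δ * (n : ℝ) ^ 2 := by
    intro c
    refine le_trans (le_of_eq ?_) (hv (fun _ => ⟨0, hq⟩) (fun _ => c))
    rw [Nat.card_eq_fintype_card, Fintype.card_subtype]
    congr 2
    ext e
    rw [mem_filter, mem_filter]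
    rfl
  have h2 : ∑ c : Fin q, ((univ.filter fun e => (x e).1 ⟨0, hq⟩ = c).card : ℝ) =
      (n : ℝ) ^ 2 := by
    have := card_eq_sum_card_fiberwise (s := (univ : Finset (Fin n × Fin n)))
      (f := fun e => (x e).1 ⟨0, hq⟩) (t := univ) (fun _ _ => mem_univ _)
    rw [card_univ, Fintype.card_prod, Fintype.card_fin] at this
    rw [sq]
    exact_mod_cast this.symm
  have h3 := sum_le_sum (fun c (_ : c ∈ (univ : Finset (Fin q))) => h1 c)
  rw [h2, sum_const, card_univ, Fintype.card_fin, nsmul_eq_mul] at h3
  have hn2 : (0 : ℝ) < (n : ℝ) ^ 2 := by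
    have : (1 : ℝ) ≤ n := by exact_mod_cast hn
    positivity
  have h4 : (q : ℝ) * δ < 1 := by
    rw [lt_div_iff₀ hq0] at hδ
    linarith
  nlinarith

/-- (1) For every `q ≥ 2` and `δ > 1 / q` read-once tensor networks which separate the 2-to-1 games
of value one from those of value at most `δ` need exponential bond dimension.
(2) For every even `q = 2 r ≥ 4` and `δ > 2 / q` this also holds for strict 2-to-1 games.
(3) For `δ < 1 / q` there are no games of value at most `δ`. -/
theorem result :
    (∀ q : ℕ, 2 ≤ q → ∀ δ : ℝ, 1 / (q : ℝ) < δ → ∃ D : ℕ, 0 < D ∧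
      LowerBound (Set.Iic 2) q δ D) ∧
    (∀ r : ℕ, 2 ≤ r → ∀ δ : ℝ, 1 / (r : ℝ) < δ → ∃ D : ℕ, 0 < D ∧
      LowerBound {0, 2} (2 * r) δ D) ∧
    ∀ n q : ℕ, 1 ≤ n → 1 ≤ q → ∀ δ : ℝ, δ < 1 / (q : ℝ) →
      ∀ x : Fin n × Fin n → Constraint (Set.Iic 2) q, ¬ ValueLe δ x :=
  ⟨fun q hq _ hδ => weak q hq hδ, fun r hr _ hδ => strict r hr hδ,
    fun _ _ hn hq _ hδ x => value_ge hn hq hδ x⟩

end Pool.Agent.Results.MP_ec946a_lc.TensorNetworksEverySoundness
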